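import Mathlib
import Pool.Agent.Helper852.Bip.Lower
import Pool.Agent.Helper852.Bip.Upper

set_option autoImplicit false

open Filter Topology

namespace Pool.Agent.Results.MP_58acf5_co.Bounds

/-- `G` contains the complete bipartite graph `K(a,b)`: there are disjoint vertex sets `R`, `S`
with `|R| = a`, `|S| = b` and all edges between them present. -/
def ContainsK {n : ℕ} (G : SimpleGraph (Fin n)) (a b : ℕ) : Prop :=
  ∃ R S : Finset (Fin n), Disjoint R S ∧ R.card = a ∧ S.card = b ∧ ∀ x ∈ R, ∀ y ∈ S, G.Adj x y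

/-- `s_r(G)`: the largest `s` such that `G` contains `K(r,s)`. -/
noncomputable def sLargest {n : ℕ} (G : SimpleGraph (Fin n)) (r : ℕ) : ℕ :=
  sSup {s : ℕ | ContainsK G r s}

/-- `f(G)`: the maximum of `s_r(G) / (n / 2^r)` over the positive integers `r` with
`r * 2^r < n`. -/
noncomputable def f {n : ℕ} (G : SimpleGraph (Fin n)) : ℝ :=
  sSup {x : ℝ | ∃ r : ℕ, 1 ≤ r ∧ r * 2 ^ r < n ∧ x = (sLargest G r : ℝ) / ((n : ℝ) / 2 ^ r)}

/-- `A(n)`: the minimum of `f(G)` over all graphs with `n` vertices and `⌊n^2/4⌋` edges. -/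
noncomputable def A (n : ℕ) : ℝ :=
  sInf {x : ℝ | ∃ G : SimpleGraph (Fin n), G.edgeSet.ncard = n ^ 2 / 4 ∧ x = f G}

section proofs

variable {n : ℕ}

lemma bdd_contains (G : SimpleGraph (Fin n)) (r : ℕ) : BddAbove {s : ℕ | ContainsK G r s} := by
  refine ⟨n, ?_⟩
  rintro s ⟨R, S, _, _, hS, _⟩
  rw [← hS]
  simpa using S.card_le_univ

lemma le_sLargest (G : SimpleGraph (Fin n)) (r : ℕ) (R S : Finset (Fin n)) (hR : R.card = r)
    (h : ∀ x ∈ R, ∀ y ∈ S, G.Adj x y) : S.card ≤ sLargest G r := by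
  apply le_csSup (bdd_contains G r)
  refine ⟨R, S, ?_, hR, rfl, h⟩
  rw [Finset.disjoint_left]
  intro x hx hx'
  exact (h x hx x hx').ne rfl

lemma sLargest_le (G : SimpleGraph (Fin n)) (r : ℕ) (c : ℝ) (hc : 0 ≤ c)
    (h : ∀ R S : Finset (Fin n), R.card = r → (∀ x ∈ R, ∀ y ∈ S, G.Adj x y) → (S.card : ℝ) ≤ c) :
    (sLargest G r : ℝ) ≤ c := by
  rcases Set.eq_empty_or_nonempty {s : ℕ | ContainsK G r s} with he | hne
  · have : sLargest G r = 0 := by rw [sLargest, he]; simp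
    rw [this]; simpa using hc
  · obtain ⟨R, S, _, hR, hS, hRS⟩ := Nat.sSup_mem hne (bdd_contains G r)
    have := h R S hR hRS
    rw [hS] at this
    exact this

lemma bdd_f (G : SimpleGraph (Fin n)) : BddAbove {x : ℝ | ∃ r : ℕ, 1 ≤ r ∧ r * 2 ^ r < n ∧
    x = (sLargest G r : ℝ) / ((n : ℝ) / 2 ^ r)} := by
  apply Set.Finite.bddAbove
  apply Set.Finite.subset ((Set.finite_Iio n).image
    (fun r : ℕ => (sLargest G r : ℝ) / ((n : ℝ) / 2 ^ r)))
  rintro x ⟨r, _, h2, rfl⟩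
  refine ⟨r, ?_, rfl⟩
  have : r * 1 ≤ r * 2 ^ r := Nat.mul_le_mul_left _ Nat.one_le_two_pow
  simp only [Set.mem_Iio]
  omega

lemma f_nonneg (G : SimpleGraph (Fin n)) : 0 ≤ f G := by
  apply Real.sSup_nonneg
  rintro x ⟨r, _, _, rfl⟩
  positivity

lemma le_f (G : SimpleGraph (Fin n)) (r : ℕ) (h1 : 1 ≤ r) (h2 : r * 2 ^ r < n) :
    (sLargest G r : ℝ) / ((n : ℝ) / 2 ^ r) ≤ f G :=
  le_csSup (bdd_f G) ⟨r, h1, h2, rfl⟩

lemma exists_card (hn : 2 ≤ n) : ∃ G : SimpleGraph (Fin n), G.edgeSet.ncard = n ^ 2 / 4 := by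
  classical
  have h1 : n ^ 2 / 4 ≤ (⊤ : SimpleGraph (Fin n)).edgeFinset.card := by
    rw [SimpleGraph.card_edgeFinset_top_eq_card_choose_two, Fintype.card_fin, Nat.choose_two_right]
    obtain ⟨k, rfl⟩ : ∃ k, n = k + 2 := ⟨n - 2, by omega⟩
    have e : k + 2 - 1 = k + 1 := rfl
    rw [e]
    have : (k + 2) ^ 2 / 4 ≤ (2 * ((k + 2) * (k + 1))) / 4 := Nat.div_le_div_right (by nlinarith)
    refine this.trans ?_
    omega
  obtain ⟨F, hF, hFc⟩ := Finset.exists_subset_card_eq h1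
  refine ⟨SimpleGraph.fromEdgeSet (F : Set (Sym2 (Fin n))), ?_⟩
  rw [SimpleGraph.edgeSet_fromEdgeSet]
  have : (F : Set (Sym2 (Fin n))) \ Sym2.diagSet = (F : Set (Sym2 (Fin n))) := by
    ext e
    constructor
    · intro h; exact h.1
    · intro h
      refine ⟨h, fun hd => ?_⟩
      have h2 := hF (Finset.mem_coe.1 h)
      rw [SimpleGraph.mem_edgeFinset] at h2
      exact SimpleGraph.not_isDiag_of_mem_edgeSet _ h2 (by simpa using hd)
  rw [this, Set.ncard_coe_finset, hFc]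

lemma le_A (hn : 2 ≤ n) (c : ℝ)
    (h : ∀ G : SimpleGraph (Fin n), G.edgeSet.ncard = n ^ 2 / 4 → c ≤ f G) : c ≤ A n := by
  apply le_csInf
  · obtain ⟨G, hG⟩ := exists_card hn
    exact ⟨f G, G, hG, rfl⟩
  · rintro x ⟨G, hG, rfl⟩
    exact h G hG

lemma A_le (G : SimpleGraph (Fin n)) (hG : G.edgeSet.ncard = n ^ 2 / 4) : A n ≤ f G := by
  apply csInf_le
  · refine ⟨0, ?_⟩
    rintro x ⟨G, _, rfl⟩
    exact f_nonneg G
  · exact ⟨G, hG, rfl⟩

theorem lower_sr (ε : ℝ) (hε : 0 < ε) : ∀ᶠ r : ℕ in atTop, ∀ n : ℕ, r * 2 ^ r < n →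
    ∀ G : SimpleGraph (Fin n), G.edgeSet.ncard = n ^ 2 / 4 →
      (1 - ε) * ((n : ℝ) / 2 ^ r + r) ≤ (sLargest G r : ℝ) := by
  classical
  set δ : ℝ := min (ε / 2) (1 / 2) with hδ
  have hδ0 : 0 < δ := by positivity
  have hδ1 : δ < 1 := lt_of_le_of_lt (min_le_right _ _) (by norm_num)
  have hδε : δ ≤ ε / 2 := min_le_left _ _
  have e1 : ∀ᶠ r : ℕ in atTop, 4 / ε ≤ (r : ℝ) :=
    tendsto_natCast_atTop_atTop.eventually (eventually_ge_atTop _)
  filter_upwards [Pool.Agent.Helper852.Bip.main_lower δ hδ0 hδ1, e1] with r hr her n hn G hG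
  have hcard : G.edgeFinset.card = n ^ 2 / 4 := by
    rw [← hG, ← SimpleGraph.coe_edgeFinset, Set.ncard_coe_finset]
  obtain ⟨R, S, hR, hRS, hS⟩ := hr n hn G (by
    rw [hcard]
    have h2 : n ^ 2 % 4 ≤ 1 := by
      rcases Nat.even_or_odd' n with ⟨k, rfl | rfl⟩
      · have : (2 * k) ^ 2 = 4 * k ^ 2 := by ring
        omega
      · have : (2 * k + 1) ^ 2 = 4 * (k ^ 2 + k) + 1 := by ring
        omega
    omega)
  have h1 : (S.card : ℝ) ≤ (sLargest G r : ℝ) := by exact_mod_cast le_sLargest G r R S hR hRS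
  have hr0 : (0 : ℝ) ≤ r := by positivity
  have hn0 : (0 : ℝ) ≤ (n : ℝ) / 2 ^ r := by positivity
  have h2 : 2 ≤ (ε / 2) * r := by
    rw [div_le_iff₀ hε] at her
    linarith
  have h3 : (1 - ε) * ((n : ℝ) / 2 ^ r) ≤ (1 - δ) * ((n : ℝ) / 2 ^ r) :=
    mul_le_mul_of_nonneg_right (by linarith) hn0
  have h4 : (1 - ε) * (r : ℝ) ≤ (1 - δ) * r - 2 := by
    have : δ * (r : ℝ) ≤ (ε / 2) * r := mul_le_mul_of_nonneg_right hδε hr0
    nlinarith
  linarith

/-- the ratio at a scale `r` with `n/2^r ≤ c (r+1)` -/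
lemma ratio_bound (ε : ℝ) (hε : 0 < ε) (hε1 : ε < 1) (c : ℝ) (hc : 0 < c) : ∀ᶠ r : ℕ in atTop,
    ∀ n : ℕ, r * 2 ^ r < n → (n : ℝ) / 2 ^ r ≤ c * (r + 1) →
    (1 - ε) * (1 + (1 - ε) / c) ≤ A n := by
  have e1 : ∀ᶠ r : ℕ in atTop, 1 / ε ≤ (r : ℝ) :=
    tendsto_natCast_atTop_atTop.eventually (eventually_ge_atTop _)
  filter_upwards [lower_sr ε hε, e1, eventually_ge_atTop 1] with r hr her hr1 n hn hnc
  have hrpos : (0 : ℝ) < r := by exact_mod_cast hr1
  have hn2 : 2 ≤ n := by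
    have : 1 * 2 ^ 1 ≤ r * 2 ^ r := Nat.mul_le_mul hr1 (Nat.pow_le_pow_right (by norm_num) hr1)
    omega
  have hnpos : (0 : ℝ) < n := by positivity
  apply le_A hn2
  intro G hG
  refine le_trans ?_ (le_f G r hr1 hn)
  have h1 := hr n hn G hG
  have hμ : (0 : ℝ) < (n : ℝ) / 2 ^ r := by positivity
  rw [le_div_iff₀ hμ]
  refine le_trans ?_ h1
  rw [mul_assoc]
  apply mul_le_mul_of_nonneg_left _ (by linarith)
  have h2 : (1 - ε) / c * ((n : ℝ) / 2 ^ r) ≤ r := by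
    calc (1 - ε) / c * ((n : ℝ) / 2 ^ r) ≤ (1 - ε) / c * (c * (r + 1)) := by
          apply mul_le_mul_of_nonneg_left hnc
          apply div_nonneg (by linarith) hc.le
      _ = (1 - ε) * (r + 1) := by field_simp
      _ ≤ r := by
          rw [div_le_iff₀ hε] at her
          nlinarith
  linarith

theorem liminf_bound (ε : ℝ) (hε : 0 < ε) : ∀ᶠ n : ℕ in atTop, 3 / 2 - ε ≤ A n := by
  set η : ℝ := min (ε / 3) (1 / 2) with hη
  have hη0 : 0 < η := by positivity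
  have hη1 : η < 1 := lt_of_le_of_lt (min_le_right _ _) (by norm_num)
  have hηε : η ≤ ε / 3 := min_le_left _ _
  obtain ⟨r0, hr0⟩ := eventually_atTop.1 (ratio_bound η hη0 hη1 2 (by norm_num))
  filter_upwards [eventually_gt_atTop (r0 * 2 ^ r0)] with n hn
  have hP0 : (fun r => r * 2 ^ r < n) 0 := by simp; omega
  have hr0n : r0 ≤ n := by
    have : r0 * 1 ≤ r0 * 2 ^ r0 := Nat.mul_le_mul_left _ Nat.one_le_two_pow
    omega
  set r := Nat.findGreatest (fun r => r * 2 ^ r < n) n with hr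
  have h1 : r0 ≤ r := Nat.le_findGreatest hr0n hn
  have h2 : r * 2 ^ r < n := Nat.findGreatest_spec (P := fun r => r * 2 ^ r < n) hr0n hn
  have hrn : r + 1 ≤ n := by
    have : r * 1 ≤ r * 2 ^ r := Nat.mul_le_mul_left _ Nat.one_le_two_pow
    omega
  have h3 : n ≤ (r + 1) * 2 ^ (r + 1) := by
    have := Nat.findGreatest_is_greatest (P := fun r => r * 2 ^ r < n) (n := n) (k := r + 1)
      (by rw [← hr]; omega) hrn
    exact Nat.le_of_not_lt this
  have h4 : (n : ℝ) / 2 ^ r ≤ 2 * (r + 1) := by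
    rw [div_le_iff₀ (by positivity)]
    have : (n : ℝ) ≤ ((r : ℝ) + 1) * 2 ^ (r + 1) := by exact_mod_cast h3
    rw [pow_succ] at this
    linarith
  have h5 := hr0 r h1 n h2 h4
  refine le_trans ?_ h5
  nlinarith

theorem limsup_bound (ε : ℝ) (hε : 0 < ε) : ∃ᶠ n : ℕ in atTop, 2 - ε ≤ A n := by
  set η : ℝ := min (ε / 3) (1 / 2) with hη
  have hη0 : 0 < η := by positivity
  have hη1 : η < 1 := lt_of_le_of_lt (min_le_right _ _) (by norm_num)
  have hηε : η ≤ ε / 3 := min_le_left _ _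
  obtain ⟨r0, hr0⟩ := eventually_atTop.1 (ratio_bound η hη0 hη1 1 (by norm_num))
  rw [frequently_atTop]
  intro a
  set r := max r0 a with hr
  refine ⟨r * 2 ^ r + 1, ?_, ?_⟩
  · have : r * 1 ≤ r * 2 ^ r := Nat.mul_le_mul_left _ Nat.one_le_two_pow
    have h2 : a ≤ r := le_max_right _ _
    omega
  · have h1 := hr0 r (le_max_left _ _) (r * 2 ^ r + 1) (by omega) (by
      rw [div_le_iff₀ (by positivity)]
      push_cast
      have : (1 : ℝ) ≤ 2 ^ r := one_le_pow₀ (by norm_num)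
      linarith)
    refine le_trans ?_ h1
    nlinarith

lemma large_x : ∀ᶠ x : ℝ in atTop, 0 < x ∧ Real.exp 1 ≤ 4 * Real.exp x / x ∧
    2 * Real.exp x + 1 ≤ (4 * Real.exp x / x) * (Real.log (4 * Real.exp x / x) - 2) := by
  have t1 : ∀ᶠ x : ℝ in atTop, ‖Real.log x‖ ≤ (1 / 8) * ‖x‖ :=
    Real.isLittleO_log_id_atTop.bound (by norm_num)
  filter_upwards [t1, eventually_ge_atTop 8] with x h1 h8
  have hx : 0 < x := by linarith
  have hex : x + 1 ≤ Real.exp x := Real.add_one_le_exp x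
  have he3 : Real.exp 1 < 3 := by
    have := Real.exp_one_lt_d9; linarith
  have hq : 4 ≤ 4 * Real.exp x / x := by
    rw [le_div_iff₀ hx]; linarith
  refine ⟨hx, by linarith, ?_⟩
  rw [Real.norm_eq_abs, Real.norm_eq_abs, abs_of_pos hx] at h1
  have h2 : Real.log x ≤ x / 8 := by
    have := le_abs_self (Real.log x); linarith
  have hlog : Real.log (4 * Real.exp x / x) = Real.log 4 + x - Real.log x := by
    rw [Real.log_div (by positivity) (by positivity), Real.log_mul (by norm_num) (by positivity),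
      Real.log_exp]
  have hlog4 : 1 ≤ Real.log 4 := by
    have : Real.log (Real.exp 1) ≤ Real.log 4 := Real.log_le_log (Real.exp_pos 1) (by linarith)
    rwa [Real.log_exp] at this
  rw [hlog]
  have h3 : 3 / 4 * x ≤ Real.log 4 + x - Real.log x - 2 := by linarith
  have h4 : (4 * Real.exp x / x) * (3 / 4 * x) = 3 * Real.exp x := by field_simp
  have h5 : (4 * Real.exp x / x) * (3 / 4 * x)
      ≤ (4 * Real.exp x / x) * (Real.log 4 + x - Real.log x - 2) :=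
    mul_le_mul_of_nonneg_left h3 (by positivity)
  rw [h4] at h5
  linarith

theorem upper_bound : ∀ᶠ n : ℕ in atTop, A n ≤ 4 * Real.log n / Real.log (Real.log n) := by
  have t : Tendsto (fun n : ℕ => Real.log (Real.log (n : ℝ))) atTop atTop :=
    Real.tendsto_log_atTop.comp (Real.tendsto_log_atTop.comp tendsto_natCast_atTop_atTop)
  have t2 : Tendsto (fun n : ℕ => Real.log (n : ℝ)) atTop atTop :=
    Real.tendsto_log_atTop.comp tendsto_natCast_atTop_atTop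
  filter_upwards [t.eventually large_x, t2.eventually (eventually_gt_atTop 0),
    eventually_ge_atTop 3] with n h1 h2 h3
  rw [Real.exp_log h2] at h1
  obtain ⟨hx, h4, h5⟩ := h1
  set K : ℝ := 4 * Real.log n / Real.log (Real.log n) with hK
  have hKpos : 0 < K := lt_of_lt_of_le (Real.exp_pos 1) h4
  obtain ⟨G, hG, hG2⟩ := Pool.Agent.Helper852.Bip.exists_graph n K h3 h4 h5
  refine (A_le G hG).trans ?_
  apply Real.sSup_le _ hKpos.le
  rintro x ⟨r, hr1, hr2, rfl⟩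
  have hnpos : (0 : ℝ) < n := by positivity
  rw [div_le_iff₀ (by positivity)]
  exact sLargest_le G r _ (by positivity) (fun R S hR hRS => hG2 r hr1 hr2 R S hR hRS)

end proofs

/-- Bounds for `A(n)`: `liminf A(n) ≥ 3/2`, `limsup A(n) ≥ 2`, `A(n) ≤ 4 log n / log log n` for
large `n`; in particular `A(n)` does not tend to `1`.  The first clause is the underlying
statement: `s_r(G) ≥ (1-ε)(n/2^r + r)` whenever `r * 2^r < n` and `r` is large. -/
theorem result :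
    (∀ ε : ℝ, 0 < ε → ∀ᶠ r : ℕ in atTop, ∀ n : ℕ, r * 2 ^ r < n →
      ∀ G : SimpleGraph (Fin n), G.edgeSet.ncard = n ^ 2 / 4 →
        (1 - ε) * ((n : ℝ) / 2 ^ r + r) ≤ (sLargest G r : ℝ)) ∧
    (∀ ε : ℝ, 0 < ε → ∀ᶠ n : ℕ in atTop, 3 / 2 - ε ≤ A n) ∧
    (∀ ε : ℝ, 0 < ε → ∃ᶠ n : ℕ in atTop, 2 - ε ≤ A n) ∧
    (∀ᶠ n : ℕ in atTop, A n ≤ 4 * Real.log n / Real.log (Real.log n)) ∧
    ¬ Tendsto A atTop (𝓝 1) := by
  refine ⟨lower_sr, liminf_bound, limsup_bound, upper_bound, ?_⟩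
  intro h
  have h1 := h.eventually (gt_mem_nhds (show (1 : ℝ) < 5 / 4 by norm_num))
  have h2 := liminf_bound (1 / 4) (by norm_num)
  obtain ⟨n, hn1, hn2⟩ := (h1.and h2).exists
  linarith

end Pool.Agent.Results.MP_58acf5_co.Bounds
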